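import Pool.Agent.N165.CU.Defs
import Mathlib

set_option autoImplicit false
set_option linter.unusedSectionVars false

/-! # Automorphisms of polynomial rings over a ring which fix the origin -/

namespace Pool.Agent.K6.H7.UC

open MvPolynomial Pool.Agent.N165.CU

section org

variable {K : Type} [CommRing K] {A B : Type}

/-- algebra homomorphisms which fix the origin -/
theorem org_of_X (Φ : MvPolynomial A K →ₐ[K] MvPolynomial B K)
    (h : ∀ i, constantCoeff (Φ (X i)) = 0) (g : MvPolynomial A K) :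
    constantCoeff (Φ g) = constantCoeff g := by
  induction g using MvPolynomial.induction_on with
  | C a =>
    have : Φ (C a) = C a := Φ.commutes a
    rw [this, constantCoeff_C, constantCoeff_C]
  | add p q hp hq => rw [map_add, map_add, map_add, hp, hq]
  | mul_X p i hp => rw [map_mul, map_mul, map_mul, h, constantCoeff_X, mul_zero, mul_zero]

/-- `g` has order at least two at the origin -/
def Sq (g : MvPolynomial A K) : Prop :=
  g ∈ (RingHom.ker (constantCoeff : MvPolynomial A K →+* K)) ^ 2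

theorem Sq.map {Φ : MvPolynomial A K →ₐ[K] MvPolynomial B K}
    (hΦ : ∀ g, constantCoeff (Φ g) = constantCoeff g) {g : MvPolynomial A K} (h : Sq g) :
    Sq (Φ g) := by
  unfold Sq at h ⊢
  have h1 : (RingHom.ker (constantCoeff : MvPolynomial A K →+* K)).map (Φ : _ →+* MvPolynomial B K) ≤
      RingHom.ker (constantCoeff : MvPolynomial B K →+* K) := by
    rw [Ideal.map_le_iff_le_comap]
    intro x hx
    rw [Ideal.mem_comap, RingHom.mem_ker]
    rw [RingHom.mem_ker] at hx
    exact (hΦ x).trans hx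
  have h2 := Ideal.mem_map_of_mem (Φ : _ →+* MvPolynomial B K) h
  rw [Ideal.map_pow] at h2
  exact Ideal.pow_right_mono h1 2 h2

theorem Sq.add {g h : MvPolynomial A K} (hg : Sq g) (hh : Sq h) : Sq (g + h) :=
  Ideal.add_mem _ hg hh

theorem Sq.mul_left {g : MvPolynomial A K} (h : MvPolynomial A K) (hg : Sq g) : Sq (h * g) :=
  Ideal.mul_mem_left _ h hg

theorem Sq.sum {Λ : Type} (s : Finset Λ) (g : Λ → MvPolynomial A K) (h : ∀ x ∈ s, Sq (g x)) :
    Sq (∑ x ∈ s, g x) :=
  Ideal.sum_mem _ h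

theorem sq_mul {g h : MvPolynomial A K} (hg : constantCoeff g = 0) (hh : constantCoeff h = 0) :
    Sq (g * h) := by
  unfold Sq
  rw [pow_two]
  exact Ideal.mul_mem_mul hg hh

theorem Sq.coeff {g : MvPolynomial A K} (h : Sq g) (a : A) :
    MvPolynomial.coeff (Finsupp.single a 1) g = 0 := by
  classical
  unfold Sq at h
  rw [pow_two] at h
  refine Submodule.mul_induction_on h (fun p hp q hq => ?_) (fun x y hx hy => ?_)
  · rw [RingHom.mem_ker] at hp hq
    rw [MvPolynomial.coeff_mul]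
    refine Finset.sum_eq_zero fun x hx => ?_
    rw [Finset.HasAntidiagonal.mem_antidiagonal] at hx
    have h1 : x.1 = 0 ∨ x.2 = 0 := by
      by_contra hcon
      push Not at hcon
      obtain ⟨h2, h3⟩ := hcon
      have h4 := congrArg Finsupp.degree hx
      rw [map_add, Finsupp.degree_single] at h4
      have h5 : 1 ≤ x.1.degree := Nat.one_le_iff_ne_zero.2 fun h => h2 ((Finsupp.degree_eq_zero_iff _).1 h)
      have h6 : 1 ≤ x.2.degree := Nat.one_le_iff_ne_zero.2 fun h => h3 ((Finsupp.degree_eq_zero_iff _).1 h)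
      omega
    rcases h1 with h1 | h1
    · rw [h1]
      have : MvPolynomial.coeff 0 p = 0 := by
        rw [← constantCoeff_eq]
        exact hp
      rw [this, zero_mul]
    · rw [h1]
      have : MvPolynomial.coeff 0 q = 0 := by
        rw [← constantCoeff_eq]
        exact hq
      rw [this, mul_zero]
  · rw [MvPolynomial.coeff_add, hx, hy, add_zero]

end org

section ext

variable {K : Type} [CommRing K] {A B : Type} (ι : A → B)

open Classical in
/-- the extension of an endomorphism by the identity on the other variables -/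
noncomputable def extH (ψ : MvPolynomial A K →ₐ[K] MvPolynomial A K) :
    MvPolynomial B K →ₐ[K] MvPolynomial B K :=
  aeval fun b => if h : ∃ a, ι a = b then rename ι (ψ (X h.choose)) else X b

variable {ι} (hι : Function.Injective ι)

include hι in
theorem extH_X (ψ : MvPolynomial A K →ₐ[K] MvPolynomial A K) (a : A) :
    extH ι ψ (X (ι a)) = rename ι (ψ (X a)) := by
  have h : ∃ a', ι a' = ι a := ⟨a, rfl⟩
  unfold extH
  rw [aeval_X, dif_pos h, hι h.choose_spec]

theorem extH_ne (ψ : MvPolynomial A K →ₐ[K] MvPolynomial A K) (b : B) (hb : ∀ a, ι a ≠ b) :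
    extH ι ψ (X b) = X b := by
  unfold extH
  rw [aeval_X, dif_neg (by push Not; exact hb)]

include hι in
theorem extH_rename (ψ : MvPolynomial A K →ₐ[K] MvPolynomial A K) (q : MvPolynomial A K) :
    extH ι ψ (rename ι q) = rename ι (ψ q) := by
  have h : (extH ι ψ).comp (rename ι) = (rename ι).comp ψ := by
    apply MvPolynomial.algHom_ext
    intro a
    rw [AlgHom.comp_apply, AlgHom.comp_apply, rename_X, extH_X hι]
  exact DFunLike.congr_fun h q

include hι in
theorem extH_comp (ψ φ : MvPolynomial A K →ₐ[K] MvPolynomial A K)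
    (h : ψ.comp φ = AlgHom.id K _) : (extH ι ψ).comp (extH ι φ) = AlgHom.id K _ := by
  apply MvPolynomial.algHom_ext
  intro b
  rw [AlgHom.comp_apply, AlgHom.id_apply]
  by_cases hb : ∃ a, ι a = b
  · obtain ⟨a, rfl⟩ := hb
    rw [extH_X hι, extH_rename hι]
    have := DFunLike.congr_fun h (X a)
    rw [AlgHom.comp_apply, AlgHom.id_apply] at this
    rw [this, rename_X]
  · push Not at hb
    rw [extH_ne φ b hb, extH_ne ψ b hb]

/-- the extension of an automorphism by the identity on the other variables -/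
noncomputable def extE (ψ : MvPolynomial A K ≃ₐ[K] MvPolynomial A K) :
    MvPolynomial B K ≃ₐ[K] MvPolynomial B K :=
  AlgEquiv.ofAlgHom (extH ι ψ.toAlgHom) (extH ι ψ.symm.toAlgHom)
    (extH_comp hι _ _ (by
      apply MvPolynomial.algHom_ext
      intro a
      exact ψ.apply_symm_apply _))
    (extH_comp hι _ _ (by
      apply MvPolynomial.algHom_ext
      intro a
      exact ψ.symm_apply_apply _))

theorem extE_rename (ψ : MvPolynomial A K ≃ₐ[K] MvPolynomial A K) (q : MvPolynomial A K) :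
    extE hι ψ (rename ι q) = rename ι (ψ q) :=
  extH_rename hι ψ.toAlgHom q

theorem extE_symm_rename (ψ : MvPolynomial A K ≃ₐ[K] MvPolynomial A K) (q : MvPolynomial A K) :
    (extE hι ψ).symm (rename ι q) = rename ι (ψ.symm q) :=
  extH_rename hι ψ.symm.toAlgHom q

theorem extE_ne (ψ : MvPolynomial A K ≃ₐ[K] MvPolynomial A K) (b : B) (hb : ∀ a, ι a ≠ b) :
    extE hι ψ (X b) = X b :=
  extH_ne ψ.toAlgHom b hb

theorem extE_org (ψ : MvPolynomial A K ≃ₐ[K] MvPolynomial A K)
    (h : ∀ g, constantCoeff (ψ g) = constantCoeff g) (g : MvPolynomial B K) :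
    constantCoeff (extE hι ψ g) = constantCoeff g := by
  refine org_of_X (extE hι ψ).toAlgHom (fun b => ?_) g
  change constantCoeff (extE hι ψ (X b)) = 0
  by_cases hb : ∃ a, ι a = b
  · obtain ⟨a, rfl⟩ := hb
    have h1 := extE_rename hι ψ (X a)
    rw [rename_X] at h1
    rw [h1, constantCoeff_rename, h, constantCoeff_X]
  · push Not at hb
    rw [extE_ne hι ψ b hb, constantCoeff_X]

end ext

section graph

variable {K : Type} [CommRing K] {σ κ : Type} [Fintype κ]

/-- the embedding of the variables `x`, `z` into the variables `x`, `u`, `z` -/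
def emb0 : σ ⊕ κ → σ ⊕ (κ ⊕ κ) := Sum.map id Sum.inr

theorem emb0_inj : Function.Injective (emb0 : σ ⊕ κ → σ ⊕ (κ ⊕ κ)) :=
  Function.Injective.sumMap Function.injective_id Sum.inr_injective

theorem emb0_u (a : σ ⊕ κ) (k : κ) : emb0 a ≠ Sum.inr (Sum.inl k) := by
  rcases a with a | a <;> simp [emb0]

/-- The restriction of `G` to the subspace `ℓ_k = 0`, in the coordinates `ψ(x_i)`: the polynomial
`g(x, 0)`, where `G = ψ(g(x, z))`. -/
noncomputable def restr (ψ : MvPolynomial (σ ⊕ κ) K ≃ₐ[K] MvPolynomial (σ ⊕ κ) K)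
    (G : MvPolynomial (σ ⊕ κ) K) : MvPolynomial σ K :=
  aeval (Sum.elim X fun _ => 0) (ψ.symm G)

theorem exists_quot (g : MvPolynomial (σ ⊕ κ) K) : ∃ q : κ → MvPolynomial (σ ⊕ κ) K,
    g = rename Sum.inl (aeval (Sum.elim X fun _ => 0) g : MvPolynomial σ K) +
      ∑ k, q k * X (Sum.inr k) := by
  classical
  induction g using MvPolynomial.induction_on with
  | C a =>
    refine ⟨0, ?_⟩
    have h : (aeval (Sum.elim X fun _ => 0) (C a : MvPolynomial (σ ⊕ κ) K) :
        MvPolynomial σ K) = C a := by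
      rw [aeval_C]; rfl
    rw [h, rename_C]
    simp
  | add f g hf hg =>
    obtain ⟨q, hq⟩ := hf
    obtain ⟨r, hr⟩ := hg
    refine ⟨fun k => q k + r k, ?_⟩
    rw [map_add, map_add]
    simp only [add_mul]
    rw [Finset.sum_add_distrib]
    conv_lhs => rw [hq, hr]
    ring
  | mul_X f i hf =>
    obtain ⟨q, hq⟩ := hf
    rcases i with i | k
    · refine ⟨fun k => q k * X (Sum.inl i), ?_⟩
      rw [map_mul, aeval_X, Sum.elim_inl, map_mul, rename_X]
      conv_lhs => rw [hq]
      rw [add_mul, Finset.sum_mul]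
      congr 1
      exact Finset.sum_congr rfl fun k _ => by ring
    · refine ⟨Pi.single k f, ?_⟩
      rw [map_mul, aeval_X, Sum.elim_inr, mul_zero, map_zero, zero_add,
        Finset.sum_eq_single k]
      · rw [Pi.single_eq_same]
      · intro j _ hj
        rw [Pi.single_eq_of_ne hj, zero_mul]
      · intro h
        exact absurd (Finset.mem_univ k) h

/-- The polynomial `G(x, z) + ∑_k u_k ℓ_k(x, z)`, where `ℓ_k = ψ(z_k)`. -/
noncomputable def graph0 (ψ : MvPolynomial (σ ⊕ κ) K ≃ₐ[K] MvPolynomial (σ ⊕ κ) K)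
    (G : MvPolynomial (σ ⊕ κ) K) : MvPolynomial (σ ⊕ (κ ⊕ κ)) K :=
  rename emb0 G + ∑ k, X (Sum.inr (Sum.inl k)) * rename emb0 (ψ (X (Sum.inr k)))

/-- `u_k ↦ u_k + q_k(x, z)` -/
noncomputable def sh0H (q : κ → MvPolynomial (σ ⊕ κ) K) :
    MvPolynomial (σ ⊕ (κ ⊕ κ)) K →ₐ[K] MvPolynomial (σ ⊕ (κ ⊕ κ)) K :=
  aeval (Sum.elim (fun i => X (Sum.inl i)) (Sum.elim
    (fun k => X (Sum.inr (Sum.inl k)) + rename emb0 (q k))
    fun k => X (Sum.inr (Sum.inr k))))

theorem sh0H_l (q : κ → MvPolynomial (σ ⊕ κ) K) (i : σ) :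
    sh0H q (X (Sum.inl i)) = X (Sum.inl i) := by
  unfold sh0H
  rw [aeval_X, Sum.elim_inl]

theorem sh0H_v (q : κ → MvPolynomial (σ ⊕ κ) K) (k : κ) :
    sh0H q (X (Sum.inr (Sum.inr k))) = X (Sum.inr (Sum.inr k)) := by
  unfold sh0H
  rw [aeval_X, Sum.elim_inr, Sum.elim_inr]

theorem sh0H_u (q : κ → MvPolynomial (σ ⊕ κ) K) (k : κ) :
    sh0H q (X (Sum.inr (Sum.inl k))) = X (Sum.inr (Sum.inl k)) + rename emb0 (q k) := by
  unfold sh0H
  rw [aeval_X, Sum.elim_inr, Sum.elim_inl]

theorem sh0H_emb (q : κ → MvPolynomial (σ ⊕ κ) K) (g : MvPolynomial (σ ⊕ κ) K) :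
    sh0H q (rename emb0 g) = rename emb0 g := by
  have h : (sh0H q).comp (rename emb0) = rename emb0 := by
    apply MvPolynomial.algHom_ext
    rintro (i | k)
    · rw [AlgHom.comp_apply, rename_X]
      exact sh0H_l q _
    · rw [AlgHom.comp_apply, rename_X]
      exact sh0H_v q _
  exact DFunLike.congr_fun h g

theorem sh0H_comp (q : κ → MvPolynomial (σ ⊕ κ) K) :
    (sh0H q).comp (sh0H (-q)) = AlgHom.id K _ := by
  apply MvPolynomial.algHom_ext
  rintro (i | k | k)
  · rw [AlgHom.comp_apply, sh0H_l, sh0H_l, AlgHom.id_apply]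
  · rw [AlgHom.comp_apply, sh0H_u, map_add, sh0H_u, sh0H_emb, AlgHom.id_apply,
      Pi.neg_apply, map_neg]
    ring
  · rw [AlgHom.comp_apply, sh0H_v, sh0H_v, AlgHom.id_apply]

/-- `u_k ↦ u_k + q_k(x, z)` -/
noncomputable def sh0E (q : κ → MvPolynomial (σ ⊕ κ) K) :
    MvPolynomial (σ ⊕ (κ ⊕ κ)) K ≃ₐ[K] MvPolynomial (σ ⊕ (κ ⊕ κ)) K :=
  AlgEquiv.ofAlgHom (sh0H q) (sh0H (-q)) (sh0H_comp q) (by simpa using sh0H_comp (-q))

theorem exists_quot0 (g : MvPolynomial (σ ⊕ κ) K)
    (hg : ∀ k, coeff (Finsupp.single (Sum.inr k) 1) g = 0) : ∃ q : κ → MvPolynomial (σ ⊕ κ) K,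
    (∀ k, constantCoeff (q k) = 0) ∧
    g = rename Sum.inl (aeval (Sum.elim X fun _ => 0) g : MvPolynomial σ K) +
      ∑ k, q k * X (Sum.inr k) := by
  classical
  obtain ⟨q, hq⟩ := exists_quot g
  refine ⟨q, fun k => ?_, hq⟩
  have h1 := congrArg (coeff (Finsupp.single (Sum.inr k) 1)) hq
  rw [hg, coeff_add, coeff_sum, Finset.sum_eq_single k, coeff_mul_X', if_pos (by simp)] at h1
  · have h2 : coeff (Finsupp.single (Sum.inr k) 1)
        (rename Sum.inl (aeval (Sum.elim X fun _ => 0) g : MvPolynomial σ K) :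
          MvPolynomial (σ ⊕ κ) K) = 0 := by
      refine coeff_rename_eq_zero _ _ _ fun u hu => ?_
      exfalso
      have h3 := DFunLike.congr_fun hu (Sum.inr k)
      rw [Finsupp.mapDomain_of_notMem_range _ _ (by simp), Finsupp.single_eq_same] at h3
      exact one_ne_zero h3.symm
    rw [h2, zero_add, tsub_self] at h1
    rw [constantCoeff_eq]
    exact h1.symm
  · intro j _ hj
    rw [coeff_mul_X', if_neg]
    rw [Finsupp.mem_support_iff, Finsupp.single_apply, if_neg (fun h => hj (Sum.inr_injective h).symm)]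
    exact fun h => h rfl
  · intro h
    exact absurd (Finset.mem_univ k) h

/-- **The automorphism of a coordinate system.** -/
theorem exists_auto0 (ψ : MvPolynomial (σ ⊕ κ) K ≃ₐ[K] MvPolynomial (σ ⊕ κ) K)
    (hψ : ∀ g, constantCoeff (ψ g) = constantCoeff g)
    (G : MvPolynomial (σ ⊕ κ) K) (hG : ∀ k, coeff (Finsupp.single (Sum.inr k) 1) (ψ.symm G) = 0) :
    ∃ Φ : MvPolynomial (σ ⊕ (κ ⊕ κ)) K ≃ₐ[K] MvPolynomial (σ ⊕ (κ ⊕ κ)) K,
      (∀ g, constantCoeff (Φ g) = constantCoeff g) ∧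
      Φ (quad (restr ψ G) κ) = graph0 ψ G := by
  classical
  obtain ⟨q, hq0, hq⟩ := exists_quot0 (ψ.symm G) hG
  refine ⟨(sh0E q).trans (extE emb0_inj ψ), fun g => ?_, ?_⟩
  · rw [AlgEquiv.trans_apply, extE_org emb0_inj ψ hψ]
    refine org_of_X (sh0E q).toAlgHom (fun i => ?_) g
    change constantCoeff (sh0H q (X i)) = 0
    rcases i with i | k | k
    · rw [sh0H_l, constantCoeff_X]
    · rw [sh0H_u, map_add, constantCoeff_X, constantCoeff_rename, hq0, add_zero]
    · rw [sh0H_v, constantCoeff_X]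
  have h1 : sh0E q (quad (restr ψ G) κ) = rename emb0 (ψ.symm G) +
      ∑ k, X (Sum.inr (Sum.inl k)) * X (Sum.inr (Sum.inr k)) := by
    change sh0H q _ = _
    have h2 : (rename Sum.inl (restr ψ G) : MvPolynomial (σ ⊕ (κ ⊕ κ)) K) =
        rename emb0 (rename Sum.inl (restr ψ G) : MvPolynomial (σ ⊕ κ) K) := by
      rw [rename_rename]
      rfl
    unfold quad
    rw [h2, map_add, sh0H_emb, map_sum]
    have h3 : ∀ k, sh0H q (X (Sum.inr (Sum.inl k)) * X (Sum.inr (Sum.inr k))) =
        X (Sum.inr (Sum.inl k)) * X (Sum.inr (Sum.inr k)) +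
          rename emb0 (q k * X (Sum.inr k)) := by
      intro k
      rw [map_mul, sh0H_u, sh0H_v, map_mul, rename_X]
      have : emb0 (Sum.inr k : σ ⊕ κ) = Sum.inr (Sum.inr k) := rfl
      rw [this]
      ring
    rw [Finset.sum_congr rfl fun k _ => h3 k, Finset.sum_add_distrib, ← map_sum]
    have h4 := congrArg (rename emb0 : MvPolynomial (σ ⊕ κ) K → MvPolynomial (σ ⊕ (κ ⊕ κ)) K)
      hq
    rw [map_add] at h4
    rw [h4]
    unfold restr
    ring
  change extE emb0_inj ψ (sh0E q _) = _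
  rw [h1, map_add, map_sum, extE_rename, ψ.apply_symm_apply]
  unfold graph0
  congr 1
  refine Finset.sum_congr rfl fun k _ => ?_
  rw [map_mul, extE_ne emb0_inj ψ _ fun a => emb0_u a k]
  congr 1
  have h5 : (X (Sum.inr (Sum.inr k)) : MvPolynomial (σ ⊕ (κ ⊕ κ)) K) =
      rename emb0 (X (Sum.inr k)) := by rw [rename_X]; rfl
  rw [h5, extE_rename]

end graph

end Pool.Agent.K6.H7.UC
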