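import Pool.Agent.K6.H7.UC.Cfg
import Pool.Agent.N101.CB.Chain

set_option autoImplicit false
set_option linter.unusedSectionVars false

/-! # Stable equivalence is compatible with the steps of the reduction to cubic polynomials -/

namespace Pool.Agent.K6.H7.UC

open MvPolynomial Pool.Agent.N165.CU Pool.Agent.N101.CB

section shear

variable {K : Type} [CommRing K] {σ τ : Type}

/-- `y_j ↦ y_j + q_j(x)` -/
noncomputable def shrH (q : τ → MvPolynomial σ K) :
    MvPolynomial (σ ⊕ τ) K →ₐ[K] MvPolynomial (σ ⊕ τ) K :=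
  aeval (Sum.elim (fun i => X (Sum.inl i)) fun j => X (Sum.inr j) + rename Sum.inl (q j))

theorem shrH_l (q : τ → MvPolynomial σ K) (i : σ) : shrH q (X (Sum.inl i)) = X (Sum.inl i) := by
  unfold shrH
  rw [aeval_X, Sum.elim_inl]

theorem shrH_r (q : τ → MvPolynomial σ K) (j : τ) :
    shrH q (X (Sum.inr j)) = X (Sum.inr j) + rename Sum.inl (q j) := by
  unfold shrH
  rw [aeval_X, Sum.elim_inr]

theorem shrH_rename (q : τ → MvPolynomial σ K) (g : MvPolynomial σ K) :
    shrH q (rename Sum.inl g) = rename Sum.inl g := by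
  have h : (shrH q).comp (rename Sum.inl) = rename Sum.inl := by
    apply MvPolynomial.algHom_ext
    intro i
    rw [AlgHom.comp_apply, rename_X]
    exact shrH_l q _
  exact DFunLike.congr_fun h g

theorem shrH_comp (q : τ → MvPolynomial σ K) : (shrH q).comp (shrH (-q)) = AlgHom.id K _ := by
  apply MvPolynomial.algHom_ext
  rintro (i | j)
  · rw [AlgHom.comp_apply, shrH_l, shrH_l, AlgHom.id_apply]
  · rw [AlgHom.comp_apply, shrH_r, map_add, shrH_r, shrH_rename, AlgHom.id_apply, Pi.neg_apply,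
      map_neg]
    ring

/-- `y_j ↦ y_j + q_j(x)` -/
noncomputable def shrE (q : τ → MvPolynomial σ K) :
    MvPolynomial (σ ⊕ τ) K ≃ₐ[K] MvPolynomial (σ ⊕ τ) K :=
  AlgEquiv.ofAlgHom (shrH q) (shrH (-q)) (shrH_comp q) (by simpa using shrH_comp (-q))

theorem shrE_org (q : τ → MvPolynomial σ K) (hq : ∀ j, constantCoeff (q j) = 0)
    (g : MvPolynomial (σ ⊕ τ) K) : constantCoeff (shrE q g) = constantCoeff g := by
  refine org_of_X (shrH q) (fun i => ?_) g
  rcases i with i | j
  · rw [shrH_l, constantCoeff_X]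
  · rw [shrH_r, map_add, constantCoeff_X, constantCoeff_rename, hq, add_zero]

end shear

section rep

variable {K : Type} [CommRing K] {α β γ : Type}

theorem Rep.refl (f : MvPolynomial β K) : Rep f f 0 := by
  refine ⟨Empty, inferInstance, (Equiv.sumEmpty β (Empty ⊕ Empty)).symm, AlgEquiv.refl, ?_,
    fun g => rfl, ?_⟩
  · exact Fintype.card_eq_zero
  · unfold quad
    rw [Finset.univ_eq_empty, Finset.sum_empty, add_zero]
    rfl

theorem Rep.trans {c : MvPolynomial β K} {g : MvPolynomial γ K} {F : MvPolynomial α K} {k l : ℕ}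
    (h : Rep c g k) (h' : Rep g F l) : Rep c F (k + l) := by
  obtain ⟨κ, _, e, Φ, h1, hO, h2⟩ := h'
  have h3 := ((h.plane κ).auto Φ hO).rn e.symm
  rw [h2, rename_rename, h1] at h3
  have h4 : (e.symm ∘ e : α → α) = id := funext fun a => e.symm_apply_apply a
  rwa [h4, rename_id_apply] at h3

theorem Rep.sq {c : MvPolynomial β K} {F : MvPolynomial α K} {k : ℕ} (h : Rep c F k)
    (hc : Sq c) : Sq F := by
  obtain ⟨κ, _, e, Φ, h1, hO, h2⟩ := h
  have h3 : Sq (quad c κ) := by
    unfold quad
    refine Sq.add (hc.map (Φ := rename Sum.inl) fun g => constantCoeff_rename _ _)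
      (Sq.sum _ _ fun k _ => sq_mul (constantCoeff_X _ _) (constantCoeff_X _ _))
  have h4 : Sq (Φ.toAlgHom (quad c κ)) := h3.map (Φ := Φ.toAlgHom) hO
  have h5 : Sq (rename e F) := by
    rw [← h2]
    exact h4
  have h6 : Sq (rename e.symm (rename e F)) :=
    h5.map (Φ := rename e.symm) fun g => constantCoeff_rename _ _
  rw [rename_rename] at h6
  have h7 : (e.symm ∘ e : α → α) = id := funext fun a => e.symm_apply_apply a
  rwa [h7, rename_id_apply] at h6

/-- two polynomials which are obtained from `c` by the same number of planes -/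
theorem Rep.unique {c : MvPolynomial β K} {F : MvPolynomial α K} {G : MvPolynomial γ K} {k : ℕ}
    (h : Rep c F k) (h' : Rep c G k) :
    ∃ Ψ : MvPolynomial α K ≃ₐ[K] MvPolynomial γ K,
      (∀ g, constantCoeff (Ψ g) = constantCoeff g) ∧ Ψ F = G := by
  obtain ⟨κ, _, e, Φ, h1, hO, h2⟩ := h
  obtain ⟨κ', _, e', Φ', h1', hO', h2'⟩ := h'
  obtain ⟨g⟩ : Nonempty (κ ≃ κ') := Fintype.card_eq.1 (h1.trans h1'.symm)
  set E : β ⊕ (κ ⊕ κ) ≃ β ⊕ (κ' ⊕ κ') := Equiv.sumCongr (Equiv.refl β) (Equiv.sumCongr g g) with hE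
  have hq : rename E (quad c κ) = quad c κ' := by
    unfold quad
    rw [map_add, rename_rename, map_sum]
    congr 1
    refine Fintype.sum_equiv g _ _ fun k => ?_
    rw [map_mul, rename_X, rename_X]
    rfl
  refine ⟨(((((renameEquiv K e).trans Φ.symm).trans (renameEquiv K E)).trans Φ').trans
    (renameEquiv K e').symm), fun p => ?_, ?_⟩
  · simp only [AlgEquiv.trans_apply]
    have a1 : ∀ x : MvPolynomial (β ⊕ (κ' ⊕ κ')) K,
        constantCoeff ((renameEquiv K e').symm x) = constantCoeff x := fun x =>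
      constantCoeff_rename _ _
    have a2 : ∀ x, constantCoeff (Φ.symm x) = constantCoeff x := fun x => by
      rw [← hO, Φ.apply_symm_apply]
    rw [a1, hO', renameEquiv_apply, constantCoeff_rename, a2, renameEquiv_apply,
      constantCoeff_rename]
  · simp only [AlgEquiv.trans_apply]
    rw [renameEquiv_apply, renameEquiv_apply, ← h2, Φ.symm_apply_apply, hq, h2',
      AlgEquiv.symm_apply_eq]
    rfl

end rep

section step

variable {K : Type} [Field K] {n m : ℕ}

/-- one step -/
theorem rep_stp (f u v : MvPolynomial (Fin n) K) (hu : constantCoeff u = 0)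
    (hv : constantCoeff v = 0) : Rep f (stp f u v) 1 := by
  have h1 := ((Rep.refl f).plane (Fin 1)).auto
    (shrE (Sum.elim (fun _ : Fin 1 => v) fun _ : Fin 1 => -u)) (shrE_org _ (by
      rintro (i | i)
      · exact hv
      · change constantCoeff (-u) = 0
        rw [map_neg, hu, neg_zero]))
  have h2 : shrE (Sum.elim (fun _ : Fin 1 => v) fun _ : Fin 1 => -u) (quad f (Fin 1)) =
      rename Sum.inl f + (X (Sum.inr (Sum.inl 0)) + rename Sum.inl v) *
        (X (Sum.inr (Sum.inr 0)) - rename Sum.inl u) := by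
    change shrH _ _ = _
    unfold quad
    rw [Fin.sum_univ_one, map_add, map_mul, shrH_rename, shrH_r, shrH_r, Sum.elim_inl,
      Sum.elim_inr, map_neg, ← sub_eq_add_neg]
  rw [h2, Fintype.card_fin] at h1
  set E : Fin n ⊕ (Fin 1 ⊕ Fin 1) ≃ Fin (n + 2) :=
    (Equiv.sumCongr (Equiv.refl (Fin n)) finSumFinEquiv).trans finSumFinEquiv with hE
  have h3 := h1.rn E
  have h4 : rename E (rename Sum.inl f + (X (Sum.inr (Sum.inl 0)) + rename Sum.inl v) *
        (X (Sum.inr (Sum.inr 0)) - rename Sum.inl u)) = stp f u v := by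
    unfold stp
    rw [map_add, map_mul, map_add, map_sub, rename_rename, rename_rename, rename_rename, rename_X,
      rename_X]
    rfl
  rw [h4] at h3
  exact h3

theorem rep_chain (f : MvPolynomial (Fin n) K) :
    ∃ (κ m : ℕ) (F : MvPolynomial (Fin m) K), m = n + 2 * κ ∧ Cub F ∧ Rep f F κ :=
  chain (fun f F κ => Rep f F κ) (fun f => Rep.refl f)
    (fun f u v F κ hu hv h => by
      rw [add_comm]
      exact (rep_stp f u v hu hv).trans h) f

end step

end Pool.Agent.K6.H7.UC
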