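import Pool.Agent.K6.H7.UC.Tr

set_option autoImplicit false
set_option linter.unusedSectionVars false

/-! # The final statements -/

namespace Pool.Agent.K6.H7.UC

open MvPolynomial Pool.Agent.W428.MOT Pool.Agent.N101.CB
open Pool.Agent.H628R4.TP (IsLocalBFunction)

theorem sq_iff {K : Type} [Field K] {n : ℕ} (g : MvPolynomial (Fin n) K) :
    Sq g ↔ ∀ m ∈ g.support, 2 ≤ ∑ i, m i := by
  classical
  constructor
  · intro h m hm
    by_contra hcon
    have h2 : ∑ i, m i = 0 ∨ ∑ i, m i = 1 := by omega
    rcases h2 with h2 | h2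
    · have h3 : m = 0 := by
        ext i
        have := (Finset.sum_eq_zero_iff.1 h2) i (Finset.mem_univ i)
        simpa using this
      rw [mem_support_iff, h3, ← constantCoeff_eq, h.const] at hm
      exact hm rfl
    · obtain ⟨i, hi⟩ : ∃ i, m i ≠ 0 := by
        by_contra hc
        push Not at hc
        rw [Finset.sum_eq_zero fun i _ => hc i] at h2
        omega
      have h4 : m i + ∑ j ∈ Finset.univ.erase i, m j = 1 := by
        rw [Finset.add_sum_erase _ _ (Finset.mem_univ i)]
        exact h2
      have h5 : ∑ j ∈ Finset.univ.erase i, m j = 0 := by omega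
      have h3 : m = Finsupp.single i 1 := by
        ext j
        rw [Finsupp.single_apply]
        by_cases hj : i = j
        · subst hj
          rw [if_pos rfl]
          omega
        · rw [if_neg hj]
          exact (Finset.sum_eq_zero_iff.1 h5) j
            (Finset.mem_erase.2 ⟨fun h => hj h.symm, Finset.mem_univ _⟩)
      rw [mem_support_iff, h3, h.coeff] at hm
      exact hm rfl
  · intro h
    rw [g.as_sum]
    refine Sq.sum _ _ fun m hm => ?_
    have h1 := h m hm
    obtain ⟨i, hi⟩ : ∃ i, m i ≠ 0 := by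
      by_contra hc
      push Not at hc
      rw [Finset.sum_eq_zero fun i _ => hc i] at h1
      omega
    have h2 : m = Finsupp.single i 1 + (m - Finsupp.single i 1) := by
      rw [add_tsub_cancel_of_le]
      rw [Finsupp.single_le_iff]
      omega
    have h3 : monomial m (coeff m g) = X i * monomial (m - Finsupp.single i 1) (coeff m g) := by
      rw [X, monomial_mul, one_mul, ← h2]
    rw [h3]
    refine sq_mul (constantCoeff_X _ _) ?_
    rw [constantCoeff_monomial, if_neg]
    intro h4
    rw [h4, add_zero] at h2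
    rw [h2] at h1
    have h5 : ∑ j, (Finsupp.single i 1 : Fin n →₀ ℕ) j = 1 := by
      rw [Finset.sum_eq_single i]
      · simp
      · intro j _ hj
        exact Finsupp.single_eq_of_ne hj
      · intro h
        exact absurd (Finset.mem_univ i) h
    omega

section nf

variable {K : Type} [Field K] {N : ℕ} {M : Finset (Finset (Fin (N + 1)))}
  {a : Finset (Fin (N + 1)) → K}

theorem sq_nf (hM : ∀ e ∈ M, 2 ≤ e.card) : Sq (path K N + blocks M a) := by
  unfold path blocks
  refine Sq.add (Sq.sum _ _ fun i _ => sq_mul (constantCoeff_X _ _) (constantCoeff_X _ _))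
    (Sq.sum _ _ fun e he => Sq.mul_left _ (sq_prod _ _ (fun i _ => constantCoeff_X _ _) (hM e he)))

open Classical in
/-- the value at the indicator vector of an edge -/
theorem eval_edge (hM : ∀ e ∈ M, 2 ≤ e.card) (j : Fin N) :
    eval (fun i => if i = j.castSucc ∨ i = j.succ then (1 : K) else 0) (path K N + blocks M a) =
      1 + if ({j.castSucc, j.succ} : Finset (Fin (N + 1))) ∈ M then
        a {j.castSucc, j.succ} else 0 := by
  have hne : j.castSucc ≠ j.succ := fun h => by
    have := congrArg Fin.val h
    simp at this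
  unfold path blocks
  rw [map_add, map_sum, map_sum]
  congr 1
  · rw [Finset.sum_eq_single j]
    · rw [map_mul, eval_X, eval_X, if_pos (Or.inl rfl), if_pos (Or.inr rfl), mul_one]
    · intro i _ hi
      rw [map_mul, eval_X, eval_X]
      by_cases h1 : i.castSucc = j.castSucc ∨ i.castSucc = j.succ
      · by_cases h2 : i.succ = j.castSucc ∨ i.succ = j.succ
        · exfalso
          rcases h1 with h1 | h1
          · exact hi (Fin.castSucc_injective _ h1)
          · rcases h2 with h2 | h2
            · have a1 := congrArg Fin.val h1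
              have a2 := congrArg Fin.val h2
              simp only [Fin.val_castSucc, Fin.val_succ] at a1 a2
              omega
            · exact hi (Fin.succ_injective _ h2)
        · rw [if_neg h2, mul_zero]
      · rw [if_neg h1, zero_mul]
    · intro h
      exact absurd (Finset.mem_univ j) h
  · by_cases hm : ({j.castSucc, j.succ} : Finset (Fin (N + 1))) ∈ M
    · rw [if_pos hm, Finset.sum_eq_single ({j.castSucc, j.succ} : Finset (Fin (N + 1)))]
      · rw [map_mul, eval_C, map_prod]
        rw [Finset.prod_eq_one, mul_one]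
        intro i hi
        rw [eval_X, if_pos]
        simpa using hi
      · intro e he hne'
        rw [map_mul, map_prod]
        have h1 : ∃ i ∈ e, i ∉ ({j.castSucc, j.succ} : Finset (Fin (N + 1))) := by
          by_contra hc
          push Not at hc
          have h2 : e ⊆ {j.castSucc, j.succ} := hc
          have h3 := hM e he
          have h4 : ({j.castSucc, j.succ} : Finset (Fin (N + 1))).card = 2 :=
            Finset.card_pair hne
          exact hne' (Finset.eq_of_subset_of_card_le h2 (by omega))
        obtain ⟨i, hi, hi'⟩ := h1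
        rw [Finset.prod_eq_zero hi, mul_zero]
        rw [eval_X, if_neg]
        simpa using hi'
      · intro h
        exact absurd hm h
    · rw [if_neg hm]
      refine Finset.sum_eq_zero fun e he => ?_
      rw [map_mul, map_prod]
      have h1 : ∃ i ∈ e, i ∉ ({j.castSucc, j.succ} : Finset (Fin (N + 1))) := by
        by_contra hc
        push Not at hc
        have h2 : e ⊆ {j.castSucc, j.succ} := hc
        have h3 := hM e he
        have h4 : ({j.castSucc, j.succ} : Finset (Fin (N + 1))).card = 2 :=
          Finset.card_pair hne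
        have h5 := Finset.eq_of_subset_of_card_le h2 (by omega)
        exact hm (h5 ▸ he)
      obtain ⟨i, hi, hi'⟩ := h1
      rw [Finset.prod_eq_zero hi, mul_zero]
      rw [eval_X, if_neg]
      simpa using hi'

theorem nf_ne (hN : 2 ≤ N) (hM : ∀ e ∈ M, 2 ≤ e.card)
    (hd : (M : Set (Finset (Fin (N + 1)))).PairwiseDisjoint id) : path K N + blocks M a ≠ 0 := by
  classical
  intro h
  have h0 := eval_edge (a := a) hM ⟨0, by omega⟩
  have h1 := eval_edge (a := a) hM ⟨1, by omega⟩
  rw [h, map_zero] at h0 h1
  have hm0 : ({(⟨0, by omega⟩ : Fin N).castSucc, (⟨0, by omega⟩ : Fin N).succ} :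
      Finset (Fin (N + 1))) ∈ M := by
    by_contra hc
    rw [if_neg hc, add_zero] at h0
    exact zero_ne_one h0
  have hm1 : ({(⟨1, by omega⟩ : Fin N).castSucc, (⟨1, by omega⟩ : Fin N).succ} :
      Finset (Fin (N + 1))) ∈ M := by
    by_contra hc
    rw [if_neg hc, add_zero] at h1
    exact zero_ne_one h1
  have hne : ({(⟨0, by omega⟩ : Fin N).castSucc, (⟨0, by omega⟩ : Fin N).succ} :
      Finset (Fin (N + 1))) ≠ {(⟨1, by omega⟩ : Fin N).castSucc, (⟨1, by omega⟩ : Fin N).succ} := by
    intro he
    have h2 : (⟨0, by omega⟩ : Fin N).castSucc ∈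
        ({(⟨1, by omega⟩ : Fin N).castSucc, (⟨1, by omega⟩ : Fin N).succ} :
          Finset (Fin (N + 1))) := by
      rw [← he]
      exact Finset.mem_insert_self _ _
    rw [Finset.mem_insert, Finset.mem_singleton] at h2
    rcases h2 with h2 | h2
    · have := congrArg Fin.val h2
      simp at this
    · have := congrArg Fin.val h2
      simp at this
  have h3 := hd hm0 hm1 hne
  have h4 : (⟨0, by omega⟩ : Fin N).succ = (⟨1, by omega⟩ : Fin N).castSucc := by
    apply Fin.ext
    simp
  refine (Finset.disjoint_left.1 h3 : ∀ ⦃x⦄, x ∈ _ → x ∉ _)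
    (show (⟨0, by omega⟩ : Fin N).succ ∈ _ from ?_) ?_
  · change _ ∈ ({(⟨0, by omega⟩ : Fin N).castSucc, (⟨0, by omega⟩ : Fin N).succ} :
      Finset (Fin (N + 1)))
    simp
  · change _ ∈ ({(⟨1, by omega⟩ : Fin N).castSucc, (⟨1, by omega⟩ : Fin N).succ} :
      Finset (Fin (N + 1)))
    rw [h4]
    simp

end nf

theorem deg_ne {n : ℕ} {g : MvPolynomial (Fin n) ℂ} (hg : g ≠ 0) (h : Sq g) :
    g.totalDegree ≠ 0 := by
  intro h0
  rw [totalDegree_eq_zero_iff_eq_C] at h0
  have h1 := h.const
  rw [h0, constantCoeff_C] at h1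
  rw [h0, h1, C_0] at hg
  exact hg rfl

/-- **The normal form of a polynomial.** -/
theorem normal {n : ℕ} (f : MvPolynomial (Fin n) ℂ) (hs : ∀ m ∈ f.support, 2 ≤ ∑ i, m i) :
    ∃ (N : ℕ) (M : Finset (Finset (Fin (N + 1)))) (a : Finset (Fin (N + 1)) → ℂ) (k : ℕ),
      2 ≤ k ∧ N + 1 = n + 2 * k ∧ (∀ e ∈ M, 2 ≤ e.card ∧ e.card ≤ 3 ∧ a e ≠ 0) ∧
      (M : Set (Finset (Fin (N + 1)))).PairwiseDisjoint id ∧ Lr f (path ℂ N + blocks M a) k := by
  obtain ⟨N, M, a, k, hk, h1, h2, h3, h4⟩ := exists_nf f ((sq_iff f).2 hs)
  exact ⟨N, M, a, k, hk, h4.card, fun e he => ⟨(h1 e he).1, (h1 e he).2, h2 e he⟩, h3, h4.lr⟩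

end Pool.Agent.K6.H7.UC
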