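import Pool.Agent.N101.CB.TopFin
import Pool.Agent.N101.CB.Form
import Pool.Agent.Z864.MS.Three
import Pool.Agent.K6.H7.SC.Alg

set_option autoImplicit false

/-! # Invariance of local zeta functions and local functional equations -/

namespace Pool.Agent.K6.H7.UC

open MvPolynomial Pool.Agent.W428.MOT Pool.Agent.N101.CB
open Pool.Agent.H628R4.TP (IsLocalBFunction weylS)

section zeta

variable {K : Type} [Field K] [CharZero K]

theorem pull_zero {a b : ℕ} (ψ : MvPolynomial (Fin a) K ≃ₐ[K] MvPolynomial (Fin b) K)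
    (h0 : ∀ g, constantCoeff (ψ g) = constantCoeff g) :
    {w : Pt K (Fin b) | (fun i => aeval w (ψ (X i))) ∈ ({0} : Set (Pt K (Fin a)))} = {0} := by
  have h1 : ∀ g : MvPolynomial (Fin b) K, aeval (0 : Pt K (Fin b)) g =
      algebraMap K (AlgebraicClosure K) (constantCoeff g) := fun g => aeval_zero g
  have h2 : ∀ g : MvPolynomial (Fin a) K, aeval (0 : Pt K (Fin a)) g =
      algebraMap K (AlgebraicClosure K) (constantCoeff g) := fun g => aeval_zero g
  ext w
  rw [Set.mem_ofPred_eq, Set.mem_singleton_iff, Set.mem_singleton_iff]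
  constructor
  · intro h
    funext j
    have h3 : ∀ g : MvPolynomial (Fin a) K, aeval w (ψ g) =
        aeval (fun i => aeval w (ψ (X i))) g := by
      intro g
      have h4 : (aeval w).comp ψ.toAlgHom = aeval (fun i => aeval w (ψ (X i))) := by
        apply MvPolynomial.algHom_ext
        intro i
        rw [AlgHom.comp_apply, aeval_X]
        rfl
      exact DFunLike.congr_fun h4 g
    have h5 := h3 (ψ.symm (X j))
    rw [ψ.apply_symm_apply, aeval_X, h, h2, ← h0, ψ.apply_symm_apply, constantCoeff_X,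
      map_zero] at h5
    exact h5
  · rintro rfl
    funext i
    rw [h1, h0, constantCoeff_X, map_zero]
    rfl

/-- the local zeta function is invariant under automorphisms which fix the origin -/
theorem zt_iso {a b : ℕ} (hab : a = b) (ψ : MvPolynomial (Fin a) K ≃ₐ[K] MvPolynomial (Fin b) K)
    (h0 : ∀ g, constantCoeff (ψ g) = constantCoeff g) (g : MvPolynomial (Fin a) K) :
    zt (ψ g) {0} = zt g {0} := by
  obtain ⟨M, hM⟩ := clM_meas K
  ext N
  have h5 : b * N = a * N := by rw [hab]
  have h6 := Pool.Agent.Z864.MS.three K _ M ψ g {0} (Un K) constr_zero ce_Un N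
  rw [pull_zero ψ h0] at h6
  rw [zt, zt, PowerSeries.coeff_mk, PowerSeries.coeff_mk, ← hM, ← hM, h6, h5]

end zeta

section bfun

/-- local functional equations are invariant under isomorphisms which fix the origin -/
theorem lb_iso {σ τ : Type} [Finite σ] [Finite τ] (Ψ : MvPolynomial σ ℂ ≃ₐ[ℂ] MvPolynomial τ ℂ)
    (h0 : ∀ g, constantCoeff (Ψ g) = constantCoeff g) (g : MvPolynomial σ ℂ) (b : Polynomial ℂ)
    (hb : IsLocalBFunction g b) : IsLocalBFunction (Ψ g) b := by
  obtain ⟨L, m, a, Q, h⟩ := hb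
  choose R hR using fun Q : weylS σ => Pool.Agent.K6.H7.SC.conj_mem Ψ Q.1 Q.2
  set φ : σ → MvPowerSeries τ ℂ := fun i => ((Ψ (X i) : MvPolynomial τ ℂ) : MvPowerSeries τ ℂ)
    with hφ
  have hφ0 : ∀ i, MvPowerSeries.constantCoeff (φ i) = 0 := by
    intro i
    have h1 := h0 (X i)
    rw [constantCoeff_X, constantCoeff_eq] at h1
    rw [← MvPowerSeries.coeff_zero_eq_constantCoeff_apply]
    exact h1
  have hs := MvPowerSeries.hasSubst_of_constantCoeff_zero hφ0
  have hsub : ∀ p : MvPolynomial σ ℂ, MvPowerSeries.subst φ (p : MvPowerSeries σ ℂ) =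
      ((Ψ p : MvPolynomial τ ℂ) : MvPowerSeries τ ℂ) := by
    intro p
    rw [MvPowerSeries.subst_coe]
    have h4 : (aeval φ : MvPolynomial σ ℂ →ₐ[ℂ] MvPowerSeries τ ℂ) =
        (MvPolynomial.coeToMvPowerSeries.algHom ℂ).comp Ψ.toAlgHom := by
      apply MvPolynomial.algHom_ext
      intro i
      rw [AlgHom.comp_apply, aeval_X]
      rfl
    rw [h4]
    rfl
  refine ⟨L, m, fun i => MvPowerSeries.subst φ (a i), fun i => R (Q i), fun s => ?_⟩
  have h1 := congrArg (MvPowerSeries.substAlgHom hs) (h s)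
  have hC : ∀ z : ℂ, MvPowerSeries.substAlgHom hs (MvPowerSeries.C z) = MvPowerSeries.C z := by
    intro z
    exact (MvPowerSeries.substAlgHom hs).commutes z
  rw [map_mul, hC, map_sum, MvPowerSeries.coe_substAlgHom hs, hsub, map_pow] at h1
  rw [h1]
  refine Finset.sum_congr rfl fun i _ => ?_
  rw [← MvPowerSeries.coe_substAlgHom hs, map_mul, map_mul, hC, MvPowerSeries.coe_substAlgHom hs,
    hsub, hR, ← map_pow, Ψ.symm_apply_apply]

end bfun

end Pool.Agent.K6.H7.UC
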