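import Pool.Agent.K6.H7.UC.Ch

set_option autoImplicit false
set_option linter.unusedSectionVars false

/-! # The normal form: a path plus disjoint blocks, over a field -/

namespace Pool.Agent.K6.H7.UC

open MvPolynomial Pool.Agent.N165.CU Pool.Agent.N101.CB

/-- The polynomial `x_0 x_1 + x_1 x_2 + ⋯ + x_{n - 1} x_n`. -/
noncomputable def path (K : Type) [CommRing K] (n : ℕ) : MvPolynomial (Fin (n + 1)) K :=
  ∑ i : Fin n, X i.castSucc * X i.succ

/-- The polynomial `∑_{e ∈ M} a_e ∏_{i ∈ e} x_i`. -/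
noncomputable def blocks {K : Type} [CommRing K] {V : Type} (M : Finset (Finset V))
    (a : Finset V → K) : MvPolynomial V K :=
  ∑ e ∈ M, C (a e) * ∏ i ∈ e, X i

section field

variable {K : Type} [Field K]

/-- disjoint blocks as a set of sets -/
theorem exists_blocks {α Λ : Type} [Fintype Λ] (S : Λ → Type) [∀ x, Fintype (S x)]
    (τ : (Σ x, S x) → α) (hτ : Function.Injective τ) (a : Λ → K) (ha : ∀ x, a x ≠ 0)
    (hS : ∀ x, 2 ≤ Fintype.card (S x) ∧ Fintype.card (S x) ≤ 3) :
    ∃ (M : Finset (Finset α)) (c : Finset α → K), (∀ e ∈ M, 2 ≤ e.card ∧ e.card ≤ 3) ∧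
      (∀ e ∈ M, c e ≠ 0) ∧ (M : Set (Finset α)).PairwiseDisjoint id ∧
      blocks M c = ∑ x, C (a x) * ∏ y : S x, X (τ ⟨x, y⟩) := by
  classical
  set b : Λ → Finset α := fun x => Finset.univ.image fun y : S x => τ ⟨x, y⟩ with hb
  have hinj : ∀ x, Function.Injective fun y : S x => τ ⟨x, y⟩ := by
    intro x y y' h
    have h1 := hτ h
    simpa using h1
  have hcard : ∀ x, (b x).card = Fintype.card (S x) := by
    intro x
    rw [hb]
    beta_reduce
    rw [Finset.card_image_of_injective _ (hinj x), Finset.card_univ]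
  have hdis : ∀ x x', x ≠ x' → Disjoint (b x) (b x') := by
    intro x x' hx
    rw [Finset.disjoint_left]
    intro a ha ha'
    obtain ⟨y, -, rfl⟩ := Finset.mem_image.1 ha
    obtain ⟨y', -, h⟩ := Finset.mem_image.1 ha'
    have h1 := congrArg Sigma.fst (hτ h)
    exact hx h1.symm
  have hbinj : Function.Injective b := by
    intro x x' h
    by_contra hne
    have h1 := hdis x x' hne
    rw [← h, Finset.disjoint_self_iff_empty] at h1
    have h2 := hcard x
    rw [h1, Finset.card_empty] at h2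
    have h3 := (hS x).1
    omega
  set c : Finset α → K := fun e => if h : ∃ x, b x = e then a h.choose else 0 with hc
  have hcb : ∀ x, c (b x) = a x := by
    intro x
    have h : ∃ x', b x' = b x := ⟨x, rfl⟩
    rw [hc]
    beta_reduce
    rw [dif_pos h, hbinj h.choose_spec]
  refine ⟨Finset.univ.image b, c, ?_, ?_, ?_, ?_⟩
  · intro e he
    obtain ⟨x, -, rfl⟩ := Finset.mem_image.1 he
    rw [hcard]
    exact hS x
  · intro e he
    obtain ⟨x, -, rfl⟩ := Finset.mem_image.1 he
    rw [hcb]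
    exact ha x
  · intro e he e' he' hne
    obtain ⟨x, -, rfl⟩ := Finset.mem_image.1 (Finset.mem_coe.1 he)
    obtain ⟨x', -, rfl⟩ := Finset.mem_image.1 (Finset.mem_coe.1 he')
    exact hdis x x' fun h => hne (h ▸ rfl)
  · unfold blocks
    rw [Finset.sum_image fun x _ x' _ h => hbinj h]
    refine Finset.sum_congr rfl fun x _ => ?_
    rw [hcb]
    congr 1
    rw [hb]
    beta_reduce
    rw [Finset.prod_image fun y _ y' _ h => hinj x h]

theorem Sq.const {A : Type} {g : MvPolynomial A K} (h : Sq g) : constantCoeff g = 0 := by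
  have h1 : g ∈ RingHom.ker (constantCoeff : MvPolynomial A K →+* K) :=
    Ideal.pow_le_self two_ne_zero h
  exact h1

variable {W : Type} (F : MvPolynomial W K)

/-- the occurrences of the variables in the monomials of `F` -/
abbrev Occ : Type := Σ x : F.support, {i // i ∈ (x.1 : W →₀ ℕ).support}

/-- the sum of the monomials of `F` in disjoint sets of variables -/
noncomputable def disj : MvPolynomial (Occ F) K :=
  ∑ x : F.support, C (coeff x.1 F) * ∏ w : {i // i ∈ (x.1 : W →₀ ℕ).support}, X ⟨x, w⟩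

variable {F}

theorem rename_disj (h1 : ∀ m ∈ F.support, ∀ i, m i ≤ 1) :
    rename (fun j : Occ F => j.2.1) (disj F) = F := by
  unfold disj
  rw [map_sum]
  conv_rhs => rw [F.as_sum]
  rw [← Finset.sum_coe_sort F.support fun m => monomial m (coeff m F)]
  refine Finset.sum_congr rfl fun x _ => ?_
  rw [map_mul, map_prod, monomial_eq, rename_C]
  congr 1
  rw [Finsupp.prod, ← Finset.prod_coe_sort (x.1 : W →₀ ℕ).support]
  refine Finset.prod_congr rfl fun w _ => ?_
  have h2 : (x.1 : W →₀ ℕ) w.1 = 1 := by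
    have h3 := h1 x.1 x.2 w.1
    have h4 := Finsupp.mem_support_iff.1 w.2
    omega
  rw [rename_X, h2, pow_one]

theorem two_le (hF : Sq F) (h1 : ∀ m ∈ F.support, ∀ i, m i ≤ 1) (m : W →₀ ℕ)
    (hm : m ∈ F.support) : 2 ≤ m.support.card := by
  classical
  by_contra hcon
  have h2 : m.support.card = 0 ∨ m.support.card = 1 := by omega
  rcases h2 with h2 | h2
  · rw [Finset.card_eq_zero, Finsupp.support_eq_empty] at h2
    rw [mem_support_iff, h2, ← constantCoeff_eq, hF.const] at hm
    exact hm rfl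
  · obtain ⟨i, hi⟩ := Finset.card_eq_one.1 h2
    have h3 : m = Finsupp.single i 1 := by
      ext j
      rw [Finsupp.single_apply]
      by_cases hj : i = j
      · subst hj
        rw [if_pos rfl]
        have h4 := h1 m hm i
        have h5 : m i ≠ 0 := by
          rw [← Finsupp.mem_support_iff, hi]
          exact Finset.mem_singleton_self _
        omega
      · rw [if_neg hj, ← Finsupp.notMem_support_iff, hi, Finset.mem_singleton]
        exact fun h => hj h.symm
    rw [mem_support_iff, h3, hF.coeff] at hm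
    exact hm rfl

theorem sq_prod {A Λ : Type} (s : Finset Λ) (g : Λ → MvPolynomial A K)
    (hg : ∀ x ∈ s, constantCoeff (g x) = 0) (hs : 2 ≤ s.card) : Sq (∏ x ∈ s, g x) := by
  classical
  obtain ⟨x, hx⟩ : s.Nonempty := Finset.card_pos.1 (by omega)
  have h1 : 1 ≤ (s.erase x).card := by rw [Finset.card_erase_of_mem hx]; omega
  obtain ⟨y, hy⟩ : (s.erase x).Nonempty := Finset.card_pos.1 (by omega)
  rw [← Finset.mul_prod_erase s g hx]
  refine sq_mul (hg x hx) ?_
  rw [← Finset.mul_prod_erase _ g hy, map_mul, hg y (Finset.mem_of_mem_erase hy), zero_mul]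

theorem sq_disj (hF : Sq F) (h1 : ∀ m ∈ F.support, ∀ i, m i ≤ 1) : Sq (disj F) := by
  unfold disj
  refine Sq.sum _ _ fun x _ => Sq.mul_left _ (sq_prod _ _ (fun w _ => constantCoeff_X _ _) ?_)
  rw [Finset.card_univ, Fintype.card_coe]
  exact two_le hF h1 x.1 x.2

end field

section nf

variable {K : Type} [Field K]

/-- **The normal form.** -/
theorem exists_nf {n : ℕ} (f : MvPolynomial (Fin n) K) (hf : Sq f) :
    ∃ (N : ℕ) (M : Finset (Finset (Fin (N + 1)))) (a : Finset (Fin (N + 1)) → K) (k : ℕ),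
      2 ≤ k ∧ (∀ e ∈ M, 2 ≤ e.card ∧ e.card ≤ 3) ∧ (∀ e ∈ M, a e ≠ 0) ∧
      (M : Set (Finset (Fin (N + 1)))).PairwiseDisjoint id ∧
      Rep f (path K N + blocks M a) k := by
  classical
  have h0 := (rep_stp f 0 0 (map_zero _) (map_zero _)).trans
    (rep_stp (stp f 0 0) 0 0 (map_zero _) (map_zero _))
  obtain ⟨κ, m, F, -, ⟨T, hT⟩, hF⟩ := rep_chain (stp (stp f 0 0) 0 0)
  have h2 := h0.trans hF
  have hsq : Sq F := h2.sq hf
  have hsf : ∀ m ∈ F.support, ∀ i, m i ≤ 1 := fun m hm => (hT m hm).1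
  have hc3 : ∀ m ∈ F.support, m.support.card ≤ 3 := by
    intro m hm
    obtain ⟨h3, h4, h5⟩ := hT m hm
    have h6 : m.support.card = ∑ i, m i := by
      rw [Finset.card_eq_sum_ones]
      have h7 : ∑ i ∈ m.support, 1 = ∑ i ∈ m.support, m i := by
        refine Finset.sum_congr rfl fun i hi => ?_
        have h8 := h3 i
        have h9 := Finsupp.mem_support_iff.1 hi
        omega
      rw [h7]
      refine Finset.sum_subset (Finset.subset_univ _) fun i _ hi => Finsupp.notMem_support_iff.1 hi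
    rw [h6, ← Finset.sum_add_sum_compl T]
    omega
  rw [← rename_disj hsf] at h2
  obtain ⟨N, θ, D, _, δ, k', hk', hinj, hrep⟩ := exists_path (sq_disj hsq hsf) (by omega) h2
  set S : F.support ⊕ D → Type :=
    fun x => Sum.elim (fun e => {w // w ∈ ((e : F.support).1 : Fin m →₀ ℕ).support}) (fun _ => Bool) x
    with hS
  let inst : ∀ x, Fintype (S x) := fun x => match x with
    | Sum.inl e => (inferInstance : Fintype {w // w ∈ (e.1 : Fin m →₀ ℕ).support})
    | Sum.inr _ => (inferInstance : Fintype Bool)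
  set τ : (Σ x, S x) → Fin (N + 1) := fun x => match x with
    | ⟨Sum.inl e, w⟩ => θ ⟨e, w⟩
    | ⟨Sum.inr d, b⟩ => δ (d, b) with hτ
  have hτinj : Function.Injective τ := by
    rintro ⟨(e | d), y⟩ ⟨(e' | d'), y'⟩ hx
    · have h2 := Sum.inl_injective (hinj (a₁ := Sum.inl ⟨e, y⟩) (a₂ := Sum.inl ⟨e', y'⟩) hx)
      obtain ⟨rfl, h3⟩ := Sigma.mk.inj_iff.1 h2
      rw [eq_of_heq h3]
    · exact absurd (hinj (a₁ := Sum.inl ⟨e, y⟩) (a₂ := Sum.inr (d', y')) hx) (by simp)
    · exact absurd (hinj (a₁ := Sum.inr (d, y)) (a₂ := Sum.inl ⟨e', y'⟩) hx) (by simp)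
    · have h2 := Sum.inr_injective (hinj (a₁ := Sum.inr (d, y)) (a₂ := Sum.inr (d', y')) hx)
      have h3 := congrArg Prod.fst h2
      have h4 := congrArg Prod.snd h2
      simp only at h3 h4
      subst h3 h4
      rfl
  obtain ⟨M, c, hM1, hMc, hM2, hM3⟩ := @exists_blocks K _ (Fin (N + 1)) (F.support ⊕ D) _ S inst τ
    hτinj (Sum.elim (fun e => coeff e.1 F) fun _ => 1) (by
      rintro (e | d)
      · exact mem_support_iff.1 e.2
      · exact one_ne_zero) (by
    rintro (e | d)
    · have h2 : Fintype.card {w // w ∈ (e.1 : Fin m →₀ ℕ).support} = (e.1 : Fin m →₀ ℕ).support.card :=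
        Fintype.card_coe _
      change 2 ≤ Fintype.card {w // w ∈ (e.1 : Fin m →₀ ℕ).support} ∧
        Fintype.card {w // w ∈ (e.1 : Fin m →₀ ℕ).support} ≤ 3
      rw [h2]
      exact ⟨two_le hsq hsf e.1 e.2, hc3 e.1 e.2⟩
    · have h2 : Fintype.card Bool = 2 := Fintype.card_bool
      change 2 ≤ Fintype.card Bool ∧ Fintype.card Bool ≤ 3
      rw [h2]
      exact ⟨le_rfl, by norm_num⟩)
  refine ⟨N, M, c, k', hk', hM1, hMc, hM2, ?_⟩
  have h5 : blocks M c = rename θ (disj F) + pairSum δ := by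
    rw [hM3, Fintype.sum_sum_type]
    unfold disj
    rw [map_sum]
    congr 1
    · refine Finset.sum_congr rfl fun e _ => ?_
      rw [map_mul, map_prod, rename_C, Sum.elim_inl]
      congr 1
      refine Finset.prod_congr rfl fun w _ => ?_
      rw [rename_X]
    · unfold pairSum
      refine Finset.sum_congr rfl fun d _ => ?_
      rw [Sum.elim_inr, C_1, one_mul]
      change ∏ b : Bool, X (δ (d, b)) = _
      rw [Fintype.prod_bool, mul_comm]
  rw [h5]
  exact hrep

end nf

end Pool.Agent.K6.H7.UC
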