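import Pool.Agent.K6.H7.UC.Alg

set_option autoImplicit false
set_option linter.unusedSectionVars false

/-! # Stable equivalence of polynomials at the origin: adding planes `u v` -/

namespace Pool.Agent.K6.H7.UC

open MvPolynomial Pool.Agent.N165.CU

section rep

variable {K : Type} [CommRing K] {α β : Type}

/-- `F` is equivalent to `c + ∑_{i ≤ k} u_i v_i` -/
def Rep (c : MvPolynomial β K) (F : MvPolynomial α K) (k : ℕ) : Prop :=
  ∃ (κ : Type) (_ : Fintype κ) (e : α ≃ β ⊕ (κ ⊕ κ))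
    (Φ : MvPolynomial (β ⊕ (κ ⊕ κ)) K ≃ₐ[K] MvPolynomial (β ⊕ (κ ⊕ κ)) K),
    Fintype.card κ = k ∧ (∀ g, constantCoeff (Φ g) = constantCoeff g) ∧ Φ (quad c κ) = rename e F

/-- renaming the variables -/
theorem Rep.rn {α' : Type} {c : MvPolynomial β K} {F : MvPolynomial α K} {k : ℕ} (h : Rep c F k)
    (g : α ≃ α') : Rep c (rename g F) k := by
  obtain ⟨κ, _, e, Φ, h1, hO, h2⟩ := h
  refine ⟨κ, inferInstance, g.symm.trans e, Φ, h1, hO, ?_⟩
  rw [h2, rename_rename]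
  congr 2
  funext a
  simp

/-- automorphisms -/
theorem Rep.auto {c : MvPolynomial β K} {F : MvPolynomial α K} {k : ℕ} (h : Rep c F k)
    (Ψ : MvPolynomial α K ≃ₐ[K] MvPolynomial α K)
    (hΨ : ∀ g, constantCoeff (Ψ g) = constantCoeff g) : Rep c (Ψ F) k := by
  obtain ⟨κ, _, e, Φ, h1, hO, h2⟩ := h
  refine ⟨κ, inferInstance, e, Φ.trans (((renameEquiv K e).symm.trans Ψ).trans
    (renameEquiv K e)), h1, fun g => ?_, ?_⟩
  · rw [AlgEquiv.trans_apply, AlgEquiv.trans_apply, AlgEquiv.trans_apply, renameEquiv_apply,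
      constantCoeff_rename, hΨ, ← hO g]
    have h3 : (renameEquiv K e).symm (Φ g) = rename e.symm (Φ g) := rfl
    rw [h3, constantCoeff_rename]
  rw [AlgEquiv.trans_apply, h2, AlgEquiv.trans_apply, AlgEquiv.trans_apply]
  have h3 : (renameEquiv K e).symm (rename e F) = F := by
    rw [AlgEquiv.symm_apply_eq]
    rfl
  rw [h3]
  rfl

/-- the embedding of the variables when planes are added -/
def embP {κ μ : Type} : β ⊕ (κ ⊕ κ) → β ⊕ ((κ ⊕ μ) ⊕ (κ ⊕ μ)) :=
  Sum.map id (Sum.map Sum.inl Sum.inl)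

theorem embP_inj {κ μ : Type} : Function.Injective (embP : β ⊕ (κ ⊕ κ) →
    β ⊕ ((κ ⊕ μ) ⊕ (κ ⊕ μ))) :=
  Function.Injective.sumMap Function.injective_id
    (Function.Injective.sumMap Sum.inl_injective Sum.inl_injective)

/-- the bijection of the variables when planes are added -/
def eqvP {κ μ : Type} (e : α ≃ β ⊕ (κ ⊕ κ)) : α ⊕ (μ ⊕ μ) ≃ β ⊕ ((κ ⊕ μ) ⊕ (κ ⊕ μ)) where
  toFun := Sum.elim (fun a => embP (e a)) (Sum.elim (fun m => Sum.inr (Sum.inl (Sum.inr m)))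
    fun m => Sum.inr (Sum.inr (Sum.inr m)))
  invFun := Sum.elim (fun b => Sum.inl (e.symm (Sum.inl b)))
    (Sum.elim (Sum.elim (fun k => Sum.inl (e.symm (Sum.inr (Sum.inl k))))
      fun m => Sum.inr (Sum.inl m)) (Sum.elim (fun k => Sum.inl (e.symm (Sum.inr (Sum.inr k))))
      fun m => Sum.inr (Sum.inr m)))
  left_inv := by
    rintro (a | m | m)
    · rcases h : e a with b | k | k
      · have h1 : e.symm (Sum.inl b) = a := by rw [← h, e.symm_apply_apply]
        simp only [Sum.elim_inl, h, embP, Sum.map_inl, id_eq, h1]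
      · have h1 : e.symm (Sum.inr (Sum.inl k)) = a := by rw [← h, e.symm_apply_apply]
        simp only [Sum.elim_inl, Sum.elim_inr, h, embP, Sum.map_inl, Sum.map_inr, h1]
      · have h1 : e.symm (Sum.inr (Sum.inr k)) = a := by rw [← h, e.symm_apply_apply]
        simp only [Sum.elim_inl, Sum.elim_inr, h, embP, Sum.map_inl, Sum.map_inr, h1]
    · rfl
    · rfl
  right_inv := by
    rintro (b | (k | m) | (k | m)) <;> simp [embP]

/-- adding planes -/
theorem Rep.plane {c : MvPolynomial β K} {F : MvPolynomial α K} {k : ℕ} (h : Rep c F k)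
    (μ : Type) [Fintype μ] : Rep c (quad F μ) (k + Fintype.card μ) := by
  obtain ⟨κ, _, e, Φ, h1, hO, h2⟩ := h
  refine ⟨κ ⊕ μ, inferInstance, eqvP e, extE (embP_inj (β := β) (κ := κ) (μ := μ)) Φ,
    by rw [Fintype.card_sum, h1], extE_org _ Φ hO, ?_⟩
  have hl : ∀ m : μ, ∀ a : β ⊕ (κ ⊕ κ), embP a ≠ (Sum.inr (Sum.inl (Sum.inr m)) :
      β ⊕ ((κ ⊕ μ) ⊕ (κ ⊕ μ))) := by
    rintro m (a | a | a) <;> simp [embP]
  have hr : ∀ m : μ, ∀ a : β ⊕ (κ ⊕ κ), embP a ≠ (Sum.inr (Sum.inr (Sum.inr m)) :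
      β ⊕ ((κ ⊕ μ) ⊕ (κ ⊕ μ))) := by
    rintro m (a | a | a) <;> simp [embP]
  have h3 : quad c (κ ⊕ μ) = rename embP (quad c κ) +
      ∑ m : μ, X (Sum.inr (Sum.inl (Sum.inr m))) * X (Sum.inr (Sum.inr (Sum.inr m))) := by
    unfold quad
    rw [Fintype.sum_sum_type, map_add, map_sum, rename_rename, ← add_assoc]
    congr 2
    refine Finset.sum_congr rfl fun k _ => ?_
    rw [map_mul, rename_X, rename_X]
    rfl
  rw [h3, map_add, extE_rename, h2, map_sum]
  unfold quad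
  rw [map_add, rename_rename, rename_rename, map_sum]
  congr 1
  refine Finset.sum_congr rfl fun m _ => ?_
  rw [map_mul, extE_ne embP_inj Φ _ (hl m), extE_ne embP_inj Φ _ (hr m), map_mul, rename_X,
    rename_X]
  rfl

end rep

section steps

variable {K : Type} [CommRing K] {α β : Type}

/-- `z_0 ↦ z_0 + ε s`, `z_1 ↦ z_1 + ε z_0 + δ s` -/
noncomputable def cpH (s : α) (ε δ : K) :
    MvPolynomial (α ⊕ Fin 2) K →ₐ[K] MvPolynomial (α ⊕ Fin 2) K :=
  aeval (Sum.elim (fun i => X (Sum.inl i))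
    ![X (Sum.inr 0) + C ε * X (Sum.inl s),
      X (Sum.inr 1) + C ε * X (Sum.inr 0) + C δ * X (Sum.inl s)])

theorem cpH_l (s : α) (ε δ : K) (i : α) : cpH s ε δ (X (Sum.inl i)) = X (Sum.inl i) := by
  unfold cpH
  rw [aeval_X, Sum.elim_inl]

theorem cpH_0 (s : α) (ε δ : K) :
    cpH s ε δ (X (Sum.inr 0)) = X (Sum.inr 0) + C ε * X (Sum.inl s) := by
  unfold cpH
  rw [aeval_X, Sum.elim_inr]
  rfl

theorem cpH_1 (s : α) (ε δ : K) : cpH s ε δ (X (Sum.inr 1)) =
    X (Sum.inr 1) + C ε * X (Sum.inr 0) + C δ * X (Sum.inl s) := by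
  unfold cpH
  rw [aeval_X, Sum.elim_inr]
  rfl

theorem cpH_C (s : α) (ε δ a : K) : cpH s ε δ (C a) = C a := (cpH s ε δ).commutes a

theorem cp_comp (s : α) (ε δ ε' δ' : K) (h1 : ε + ε' = 0) (h2 : δ + δ' + ε * ε' = 0) :
    (cpH s ε δ).comp (cpH s ε' δ') = AlgHom.id K _ := by
  have h1' : (C ε : MvPolynomial (α ⊕ Fin 2) K) + C ε' = 0 := by rw [← C_add, h1, C_0]
  have h2' : (C δ : MvPolynomial (α ⊕ Fin 2) K) + C δ' + C ε * C ε' = 0 := by
    rw [← C_mul, ← C_add, ← C_add, h2, C_0]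
  apply MvPolynomial.algHom_ext
  rintro (i | j)
  · rw [AlgHom.comp_apply, cpH_l, cpH_l, AlgHom.id_apply]
  · fin_cases j
    · change cpH s ε δ (cpH s ε' δ' (X (Sum.inr 0))) = X (Sum.inr 0)
      rw [cpH_0, map_add, map_mul, cpH_C, cpH_0, cpH_l]
      linear_combination X (Sum.inl s) * h1'
    · change cpH s ε δ (cpH s ε' δ' (X (Sum.inr 1))) = X (Sum.inr 1)
      rw [cpH_1, map_add, map_add, map_mul, map_mul, cpH_C, cpH_C, cpH_1, cpH_0, cpH_l]
      linear_combination X (Sum.inr 0) * h1' + X (Sum.inl s) * h2'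

/-- `z_0 ↦ z_0 + s`, `z_1 ↦ z_1 + z_0` -/
noncomputable def cpE (s : α) : MvPolynomial (α ⊕ Fin 2) K ≃ₐ[K] MvPolynomial (α ⊕ Fin 2) K :=
  AlgEquiv.ofAlgHom (cpH s 1 0) (cpH s (-1) 1) (cp_comp s 1 0 (-1) 1 (by ring) (by ring))
    (cp_comp s (-1) 1 1 0 (by ring) (by ring))

theorem cpH_org (s : α) (ε δ : K) (g : MvPolynomial (α ⊕ Fin 2) K) :
    constantCoeff (cpH s ε δ g) = constantCoeff g := by
  refine org_of_X _ (fun i => ?_) g
  rcases i with i | j
  · rw [cpH_l, constantCoeff_X]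
  · fin_cases j
    · change constantCoeff (cpH s ε δ (X (Sum.inr 0))) = 0
      rw [cpH_0, map_add, map_mul, constantCoeff_X, constantCoeff_X, mul_zero, add_zero]
    · change constantCoeff (cpH s ε δ (X (Sum.inr 1))) = 0
      rw [cpH_1, map_add, map_add, map_mul, map_mul, constantCoeff_X, constantCoeff_X,
        constantCoeff_X, mul_zero, mul_zero, add_zero, add_zero]

theorem restr_cp (s : α) {J : Type} (θ : J → α) (θ' : J → α ⊕ Fin 2)
    (h : ∀ j, θ' j = Sum.inl (θ j) ∨ (θ' j = Sum.inr 1 ∧ θ j = s)) (B : MvPolynomial J K)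
    (Q : MvPolynomial α K) :
    restr (cpE s) (rename θ' B + rename Sum.inl Q) = rename θ B + Q := by
  unfold restr
  have h1 : ∀ p : MvPolynomial (α ⊕ Fin 2) K, (cpE s).symm p = cpH s (-1) 1 p := fun _ => rfl
  rw [h1]
  have h2 : ∀ x, aeval (Sum.elim X fun _ => (0 : MvPolynomial α K))
      (cpH s (-1) 1 (rename θ' x)) = rename θ x := by
    intro x
    have h3 : ((aeval (Sum.elim X fun _ => (0 : MvPolynomial α K))).comp
        (cpH s (-1) 1)).comp (rename θ') = rename θ := by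
      apply MvPolynomial.algHom_ext
      intro j
      rw [AlgHom.comp_apply, AlgHom.comp_apply, rename_X, rename_X]
      rcases h j with h4 | ⟨h4, h5⟩
      · rw [h4, cpH_l, aeval_X, Sum.elim_inl]
      · rw [h4, h5, cpH_1, map_add, map_add, map_mul, map_mul, aeval_X, aeval_X, aeval_X,
          Sum.elim_inr, Sum.elim_inr, Sum.elim_inl]
        simp
    exact DFunLike.congr_fun h3 x
  have h4 : ∀ x, aeval (Sum.elim X fun _ => (0 : MvPolynomial α K))
      (cpH s (-1) 1 (rename Sum.inl x)) = x := by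
    intro x
    have h3 : ((aeval (Sum.elim X fun _ => (0 : MvPolynomial α K))).comp
        (cpH s (-1) 1)).comp (rename Sum.inl) = AlgHom.id K _ := by
      apply MvPolynomial.algHom_ext
      intro j
      rw [AlgHom.comp_apply, AlgHom.comp_apply, rename_X, cpH_l, aeval_X, Sum.elim_inl,
        AlgHom.id_apply]
    exact DFunLike.congr_fun h3 x
  rw [map_add, map_add, h2, h4]

/-- **The copy step**: some occurrences of `s` are moved to the end `v_1` of the path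
`s - u_0 - v_0 - u_1 - v_1`. -/
theorem Rep.copy {c : MvPolynomial β K} {k : ℕ} (s : α) {J : Type} (θ : J → α)
    (B : MvPolynomial J K) (hB : Sq B) (Q : MvPolynomial α K) (h : Rep c (rename θ B + Q) k)
    (θ' : J → α ⊕ (Fin 2 ⊕ Fin 2))
    (hθ : ∀ j, θ' j = Sum.inl (θ j) ∨ (θ' j = Sum.inr (Sum.inr 1) ∧ θ j = s)) :
    Rep c (rename θ' B + rename Sum.inl Q +
      (X (Sum.inr (Sum.inl 0)) * (X (Sum.inr (Sum.inr 0)) + X (Sum.inl s)) +
        X (Sum.inr (Sum.inl 1)) * (X (Sum.inr (Sum.inr 1)) + X (Sum.inr (Sum.inr 0)))))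
      (k + 2) := by
  classical
  obtain ⟨θ₁, hθ₁⟩ : ∃ θ₁ : J → α ⊕ Fin 2, ∀ j, θ' j = emb0 (θ₁ j) ∧
      (θ₁ j = Sum.inl (θ j) ∨ (θ₁ j = Sum.inr 1 ∧ θ j = s)) := by
    refine ⟨fun j => if θ' j = Sum.inl (θ j) then Sum.inl (θ j) else Sum.inr 1, fun j => ?_⟩
    by_cases h1 : θ' j = Sum.inl (θ j)
    · beta_reduce
      rw [if_pos h1]
      exact ⟨h1, Or.inl rfl⟩
    · beta_reduce
      rw [if_neg h1]
      rcases hθ j with h2 | ⟨h2, h3⟩
      · exact absurd h2 h1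
      · exact ⟨h2, Or.inr ⟨rfl, h3⟩⟩
  obtain ⟨Φ, hΦ0, hΦ⟩ := exists_auto0 (cpE s) (cpH_org s 1 0)
    (rename θ₁ B + rename Sum.inl Q) (fun k => by
      have e1 : ∀ p : MvPolynomial (α ⊕ Fin 2) K, (cpE s).symm p = cpH s (-1) 1 p := fun _ => rfl
      rw [e1, map_add, coeff_add]
      have e2 : Sq (cpH s (-1) 1 (rename θ₁ B)) :=
        (hB.map (Φ := rename θ₁) fun g => constantCoeff_rename _ _).map (cpH_org s (-1) 1)
      have e3 : cpH s (-1) 1 (rename Sum.inl Q) = rename Sum.inl Q := by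
        have h3 : (cpH s (-1 : K) 1).comp (rename Sum.inl) = rename Sum.inl := by
          apply MvPolynomial.algHom_ext
          intro j
          rw [AlgHom.comp_apply, rename_X, cpH_l]
        exact DFunLike.congr_fun h3 Q
      rw [e2.coeff, e3, zero_add]
      refine coeff_rename_eq_zero _ _ _ fun u hu => ?_
      exfalso
      have h3 := DFunLike.congr_fun hu (Sum.inr k)
      rw [Finsupp.mapDomain_of_notMem_range _ _ (by simp), Finsupp.single_eq_same] at h3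
      exact one_ne_zero h3.symm)
  have h1 := (h.plane (Fin 2)).auto Φ hΦ0
  rw [← restr_cp s θ θ₁ (fun j => (hθ₁ j).2) B Q, hΦ, Fintype.card_fin] at h1
  have h2 : graph0 (cpE s) (rename θ₁ B + rename Sum.inl Q) = rename θ' B + rename Sum.inl Q +
      (X (Sum.inr (Sum.inl 0)) * (X (Sum.inr (Sum.inr 0)) + X (Sum.inl s)) +
        X (Sum.inr (Sum.inl 1)) * (X (Sum.inr (Sum.inr 1)) + X (Sum.inr (Sum.inr 0)))) := by
    unfold graph0
    have e0 : cpE s (X (Sum.inr 0)) = (X (Sum.inr 0) + X (Sum.inl s) : MvPolynomial _ K) := by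
      change cpH s 1 0 _ = _
      rw [cpH_0, C_1, one_mul]
    have e1 : cpE s (X (Sum.inr 1)) = (X (Sum.inr 1) + X (Sum.inr 0) : MvPolynomial _ K) := by
      change cpH s 1 0 _ = _
      rw [cpH_1, C_1, one_mul, C_0, zero_mul, add_zero]
    have e2 : (emb0 ∘ θ₁ : J → α ⊕ (Fin 2 ⊕ Fin 2)) = θ' := funext fun j => (hθ₁ j).1.symm
    rw [Fin.sum_univ_two, e0, e1, map_add, map_add, map_add, rename_rename, rename_rename,
      rename_X, rename_X, rename_X, e2]
    rfl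
  rw [h2] at h1
  exact h1

/-- `u ↦ u + ε t`, `v ↦ v + ε s` -/
noncomputable def ctH (s t : α) (ε : K) :
    MvPolynomial (α ⊕ (Fin 1 ⊕ Fin 1)) K →ₐ[K] MvPolynomial (α ⊕ (Fin 1 ⊕ Fin 1)) K :=
  aeval (Sum.elim (fun i => X (Sum.inl i)) (Sum.elim
    (fun _ => X (Sum.inr (Sum.inl 0)) + C ε * X (Sum.inl t))
    fun _ => X (Sum.inr (Sum.inr 0)) + C ε * X (Sum.inl s)))

theorem ctH_l (s t : α) (ε : K) (i : α) : ctH s t ε (X (Sum.inl i)) = X (Sum.inl i) := by
  unfold ctH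
  rw [aeval_X, Sum.elim_inl]

theorem ctH_u (s t : α) (ε : K) (j : Fin 1) : ctH s t ε (X (Sum.inr (Sum.inl j))) =
    X (Sum.inr (Sum.inl 0)) + C ε * X (Sum.inl t) := by
  unfold ctH
  rw [aeval_X, Sum.elim_inr, Sum.elim_inl]

theorem ctH_v (s t : α) (ε : K) (j : Fin 1) : ctH s t ε (X (Sum.inr (Sum.inr j))) =
    X (Sum.inr (Sum.inr 0)) + C ε * X (Sum.inl s) := by
  unfold ctH
  rw [aeval_X, Sum.elim_inr, Sum.elim_inr]

theorem ctH_C (s t : α) (ε a : K) : ctH s t ε (C a) = C a := (ctH s t ε).commutes a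

theorem ct_comp (s t : α) (ε ε' : K) (h : ε + ε' = 0) :
    (ctH s t ε).comp (ctH s t ε') = AlgHom.id K _ := by
  have h1' : (C ε : MvPolynomial (α ⊕ (Fin 1 ⊕ Fin 1)) K) + C ε' = 0 := by
    rw [← C_add, h, C_0]
  apply MvPolynomial.algHom_ext
  rintro (i | j | j)
  · rw [AlgHom.comp_apply, ctH_l, ctH_l, AlgHom.id_apply]
  · have hj : j = 0 := Subsingleton.elim _ _
    rw [AlgHom.comp_apply, hj, ctH_u, map_add, map_mul, ctH_C, ctH_u, ctH_l, AlgHom.id_apply]
    linear_combination X (Sum.inl t) * h1'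
  · have hj : j = 0 := Subsingleton.elim _ _
    rw [AlgHom.comp_apply, hj, ctH_v, map_add, map_mul, ctH_C, ctH_v, ctH_l, AlgHom.id_apply]
    linear_combination X (Sum.inl s) * h1'

/-- `u ↦ u + t`, `v ↦ v + s` -/
noncomputable def ctE (s t : α) :
    MvPolynomial (α ⊕ (Fin 1 ⊕ Fin 1)) K ≃ₐ[K] MvPolynomial (α ⊕ (Fin 1 ⊕ Fin 1)) K :=
  AlgEquiv.ofAlgHom (ctH s t 1) (ctH s t (-1)) (ct_comp s t 1 (-1) (by ring))
    (ct_comp s t (-1) 1 (by ring))

/-- **The cut step**: the path `s - u - v - t` and the block `{s, t}`. -/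
theorem Rep.cut {c : MvPolynomial β K} {k : ℕ} (s t : α) (F : MvPolynomial α K)
    (h : Rep c F k) :
    Rep c ((rename Sum.inl F +
      (X (Sum.inr (Sum.inl 0)) + X (Sum.inl t)) * (X (Sum.inr (Sum.inr 0)) + X (Sum.inl s)) :
        MvPolynomial (α ⊕ (Fin 1 ⊕ Fin 1)) K)) (k + 1) := by
  have h1 := (h.plane (Fin 1)).auto (ctE s t) (fun g => by
    refine org_of_X (ctH s t 1) (fun i => ?_) g
    rcases i with i | j | j
    · rw [ctH_l, constantCoeff_X]
    · rw [ctH_u, map_add, map_mul, constantCoeff_X, constantCoeff_X, mul_zero, add_zero]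
    · rw [ctH_v, map_add, map_mul, constantCoeff_X, constantCoeff_X, mul_zero, add_zero])
  have h2 : ctE s t (quad F (Fin 1)) = rename Sum.inl F +
      (X (Sum.inr (Sum.inl 0)) + X (Sum.inl t)) * (X (Sum.inr (Sum.inr 0)) + X (Sum.inl s)) := by
    change ctH s t 1 _ = _
    unfold quad
    rw [Fin.sum_univ_one, map_add, map_mul, ctH_u, ctH_v, C_1, one_mul, one_mul]
    congr 1
    have h3 : (ctH s t (1 : K)).comp (rename Sum.inl) = rename Sum.inl := by
      apply MvPolynomial.algHom_ext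
      intro i
      rw [AlgHom.comp_apply, rename_X, ctH_l]
    exact DFunLike.congr_fun h3 F
  rw [h2, Fintype.card_fin] at h1
  exact h1

end steps

end Pool.Agent.K6.H7.UC
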