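import Pool.Agent.K6.H7.UC.Nf
import Pool.Agent.K6.H7.UC.Inv

set_option autoImplicit false
set_option linter.unusedSectionVars false

/-! # Transfer of the local conjectures along stable equivalence -/

namespace Pool.Agent.K6.H7.UC

open MvPolynomial Pool.Agent.W428.MOT Pool.Agent.N101.CB
open Pool.Agent.H628R4.TP (IsLocalBFunction)

/-- planes -/
theorem exists_planes (k : ℕ) : ∀ {n : ℕ} (f : MvPolynomial (Fin n) ℂ),
    ∃ (m : ℕ) (F : MvPolynomial (Fin m) ℂ), Rep f F k ∧ Rl f F k ∧ Rf f F k := by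
  induction k with
  | zero => exact fun f => ⟨_, f, Rep.refl f, Rl.refl f, Rf.refl f⟩
  | succ k ih =>
    intro n f
    obtain ⟨m, F, h1, h2, h3⟩ := ih (stp f 0 0)
    refine ⟨m, F, ?_, Rl.step f 0 0 F k (map_zero _) (map_zero _) h2,
      Rf.step f 0 0 F k (map_zero _) (map_zero _) h3⟩
    rw [add_comm]
    exact (rep_stp f 0 0 (map_zero _) (map_zero _)).trans h1

theorem Rep.card {n m : ℕ} {K : Type} [CommRing K] {f : MvPolynomial (Fin n) K}
    {F : MvPolynomial (Fin m) K} {k : ℕ} (h : Rep f F k) : m = n + 2 * k := by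
  obtain ⟨κ', hκ', e, -, h5, -⟩ := h
  have h6 := Fintype.card_congr e
  rw [Fintype.card_fin, Fintype.card_sum, Fintype.card_sum, Fintype.card_fin, h5] at h6
  omega

/-- The local relations between `f` and `F`. -/
structure Lr {n m : ℕ} (f : MvPolynomial (Fin n) ℂ) (F : MvPolynomial (Fin m) ℂ) (κ : ℕ) :
    Prop where
  lb : f.totalDegree ≠ 0 → constantCoeff f = 0 → ∀ b : Polynomial ℂ, IsLocalBFunction f b →
    b.eval (-1) = 0 ∧ ∀ c : Polynomial ℂ, b = (Polynomial.X + 1) * c →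
      IsLocalBFunction F ((Polynomial.X + 1) * c.comp (Polynomial.X + Polynomial.C (κ : ℂ)))
  ltop : constantCoeff f = 0 → ∀ χ : MK ℂ →+* ℂ, χ ((Lu ℂ : (MK ℂ)ˣ) : MK ℂ) = 1 →
    ∀ R : RatFunc ℂ, IsTop χ (zt f {0}) R → ∃ R' : RatFunc ℂ, IsTop χ (zt F {0}) R' ∧ TF κ R R' ∧
      ∀ s : ℂ, s ≠ -1 → ¬ Reg R s → ¬ Reg R' (s - κ)
  loc : constantCoeff f = 0 →
    (1 - cYk κ * PowerSeries.X) * Dl F = cYk κ * (1 - PowerSeries.X) * rsk κ (Dl f)

theorem Rep.lr {n m : ℕ} {f : MvPolynomial (Fin n) ℂ} {F : MvPolynomial (Fin m) ℂ} {k : ℕ}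
    (h : Rep f F k) : Lr f F k := by
  obtain ⟨m', F', h1, h2, h3⟩ := exists_planes k f
  obtain ⟨Ψ, hΨ, hF⟩ := h1.unique h
  have hm : m' = m := h1.card.trans h.card.symm
  have hz : zt F {0} = zt F' {0} := by
    rw [← hF]
    exact zt_iso hm Ψ hΨ F'
  refine ⟨fun hf hf0 b hb => ?_, fun hf0 χ hχ R hR => ?_, fun hf0 => ?_⟩
  · obtain ⟨h4, h5⟩ := h2.lb hf hf0 b hb
    refine ⟨h4, fun c hc => ?_⟩
    have h6 := lb_iso Ψ hΨ F' _ (h5 c hc)
    rwa [hF] at h6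
  · obtain ⟨R', h4, h5, h6⟩ := h2.ltop hf0 χ hχ R hR
    rw [← hz] at h4
    exact ⟨R', h4, h5, h6⟩
  · have h4 := h3.loc hf0
    have h5 : Dl F = Dl F' := by
      unfold Dl Zmot
      rw [hz]
      generalize zt F' {0} = Z
      rw [hm]
    rw [h5]
    exact h4

section conj

variable {χ : MK ℂ →+* ℂ} {n m : ℕ} {f : MvPolynomial (Fin n) ℂ} {F : MvPolynomial (Fin m) ℂ}
  {κ : ℕ}

theorem Lr.lts (hχ : χ ((Lu ℂ : (MK ℂ)ˣ) : MK ℂ) = 1) (hf : f.totalDegree ≠ 0)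
    (hf0 : constantCoeff f = 0) (h : Lr f F κ) (hF : LTS χ F) : LTS χ f := by
  intro R hR s hs b hb
  obtain ⟨h2, h3⟩ := h.lb hf hf0 b hb
  by_cases h4 : s = -1
  · rw [h4]
    exact h2
  · obtain ⟨c, hc⟩ := exists_factor' h2
    obtain ⟨R', h5, -, h6⟩ := h.ltop hf0 χ hχ R hR
    exact strong_aux (ne_of_pole hR hs) κ h4 hc (hF R' h5 _ (h6 s h4 hs) _ (h3 c hc))

theorem Lr.ltw (hχ : χ ((Lu ℂ : (MK ℂ)ˣ) : MK ℂ) = 1) (hf : f.totalDegree ≠ 0)
    (hf0 : constantCoeff f = 0) (h : Lr f F κ) (hF : LTW χ F) : LTW χ f := by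
  intro R hR s hs b hb
  obtain ⟨h2, h3⟩ := h.lb hf hf0 b hb
  by_cases h4 : s = -1
  · refine ⟨0, ?_⟩
    rw [h4, Int.cast_zero, add_zero]
    exact h2
  · obtain ⟨c, hc⟩ := exists_factor' h2
    obtain ⟨R', h5, -, h6⟩ := h.ltop hf0 χ hχ R hR
    exact weak_aux κ hc (hF R' h5 _ (h6 s h4 hs) _ (h3 c hc))

/-- the strong conjecture with orders of poles: `b(s) Z_f(s)` is a polynomial -/
def LTO (χ : MK ℂ →+* ℂ) {n : ℕ} (f : MvPolynomial (Fin n) ℂ) : Prop :=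
  ∀ R : RatFunc ℂ, IsTop χ (zt f {0}) R → ∀ b : Polynomial ℂ, IsLocalBFunction f b →
    ∃ P : Polynomial ℂ, algebraMap (Polynomial ℂ) (RatFunc ℂ) b * R =
      algebraMap (Polynomial ℂ) (RatFunc ℂ) P

theorem Lr.lto (hχ : χ ((Lu ℂ : (MK ℂ)ˣ) : MK ℂ) = 1) (hf : f.totalDegree ≠ 0)
    (hf0 : constantCoeff f = 0) (h : Lr f F κ) (hF : LTO χ F) : LTO χ f := by
  intro R hR b hb
  obtain ⟨h2, h3⟩ := h.lb hf hf0 b hb
  obtain ⟨c, hc⟩ := exists_factor' h2
  obtain ⟨R', h5, hT, -⟩ := h.ltop hf0 χ hχ R hR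
  obtain ⟨P', hP'⟩ := hF R' h5 _ (h3 c hc)
  set A := algebraMap (Polynomial ℂ) (RatFunc ℂ) with hA
  set ck : Polynomial ℂ := c.comp (Polynomial.X + Polynomial.C (κ : ℂ)) with hck
  -- the shifted equation
  set Q1 : Polynomial ℂ := (Polynomial.X + Polynomial.C (κ : ℂ)) * (P' - ck) + Polynomial.X * ck
    with hQ1
  have hX : A Polynomial.X = RatFunc.X := RatFunc.algebraMap_X
  have hk : A (Polynomial.C (κ : ℂ)) = (κ : RatFunc ℂ) := by
    rw [Polynomial.C_eq_natCast, map_natCast]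
  have e1 : RatFunc.X * (A (b.comp (Polynomial.X + Polynomial.C (κ : ℂ))) * shR (κ : ℂ) R) =
      A Q1 := by
    have e2 : A (b.comp (Polynomial.X + Polynomial.C (κ : ℂ))) =
        (RatFunc.X + (κ : RatFunc ℂ) + 1) * A ck := by
      rw [hc, Polynomial.mul_comp, map_mul, Polynomial.add_comp, Polynomial.X_comp,
        Polynomial.one_comp, map_add, map_add, hX, hk, map_one]
    unfold TF at hT
    rw [e2, hQ1, map_add, map_mul, map_mul, map_add, map_sub, hX, hk]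
    have e3 : A ((Polynomial.X + 1) * ck) * R' = A P' := hP'
    rw [map_mul, map_add, hX, map_one] at e3
    rw [← e3]
    linear_combination (-A ck) * hT
  -- shift back
  have e4 := congrArg (shR (-(κ : ℂ))) e1
  rw [map_mul, map_mul, shR_X, shR_poly, shR_shR, shR_poly, Polynomial.comp_assoc,
    Polynomial.add_comp, Polynomial.X_comp, Polynomial.C_comp, Polynomial.C_neg] at e4
  have e5 : Polynomial.X + -Polynomial.C (κ : ℂ) + Polynomial.C (κ : ℂ) = Polynomial.X := by ring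
  rw [e5, Polynomial.comp_X] at e4
  set Q2 : Polynomial ℂ := Q1.comp (Polynomial.X + -Polynomial.C (κ : ℂ)) with hQ2
  have e6 : (RatFunc.X + algebraMap ℂ (RatFunc ℂ) (-(κ : ℂ)) : RatFunc ℂ) =
      A (Polynomial.X - Polynomial.C (κ : ℂ)) := by
    rw [map_neg, map_sub, hX, hk, map_natCast]
    ring
  rw [e6] at e4
  -- regularity at `κ`
  obtain ⟨p, q, hq, hqR⟩ := hR.reg (s := (κ : ℂ)) (fun p => by
    have h1 : (((p.1 + 1) * κ + (p.2 + 1) : ℕ) : ℂ) ≠ 0 := by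
      rw [Nat.cast_ne_zero]
      omega
    push_cast at h1
    exact h1)
  have e7 : q * Q2 = (Polynomial.X - Polynomial.C (κ : ℂ)) * (b * p) := by
    apply RatFunc.algebraMap_injective ℂ
    rw [map_mul, map_mul, map_mul]
    change A q * A Q2 = A _ * (A b * A p)
    rw [← e4]
    change A q * R = A p at hqR
    rw [← hqR]
    ring
  have e8 : Q2.eval (κ : ℂ) = 0 := by
    have h1 := congrArg (Polynomial.eval (κ : ℂ)) e7
    rw [Polynomial.eval_mul, Polynomial.eval_mul, Polynomial.eval_sub, Polynomial.eval_X,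
      Polynomial.eval_C, sub_self, zero_mul] at h1
    exact (mul_eq_zero.1 h1).resolve_left hq
  obtain ⟨Q3, hQ3⟩ := Polynomial.dvd_iff_isRoot.2 (show Q2.IsRoot (κ : ℂ) from e8)
  refine ⟨Q3, ?_⟩
  have e9 : A (Polynomial.X - Polynomial.C (κ : ℂ)) ≠ 0 := by
    intro h0
    have h1 : (Polynomial.X - Polynomial.C (κ : ℂ)) = 0 :=
      RatFunc.algebraMap_injective ℂ (by rw [map_zero]; exact h0)
    exact Polynomial.X_sub_C_ne_zero _ h1
  apply mul_left_cancel₀ e9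
  rw [e4, hQ3, map_mul]

end conj

end Pool.Agent.K6.H7.UC
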